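import Mathlib
import Pool.Agent.H759R2.Kad.Props6

/-!
Comparison theorem with central projections: elementary facts on projections and partial
isometries, and `W_comp`.
-/

open scoped ComplexOrder InnerProductSpace ComplexConjugate
open Finset

noncomputable section

namespace H759R2.Kad

universe u v

namespace H219

variable {A : Type u} [CStarAlgebra A]

theorem star_mul_self_zero {x : A} (h : star x * x = 0) : x = 0 :=
  CStarRing.star_mul_self_eq_zero_iff x |>.1 h

theorem mul_star_self_zero {x : A} (h : x * star x = 0) : x = 0 :=
  CStarRing.mul_star_self_eq_zero_iff x |>.1 h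

theorem pis_prj {v : A} (h : PIs v) : Prj (star v * v) := by
  refine ⟨by simp, ?_⟩
  calc star v * v * (star v * v) = star v * (v * star v * v) := by noncomm_ring
    _ = star v * v := by rw [show v * star v * v = v from h]

theorem pis_prj' {v : A} (h : PIs v) : Prj (v * star v) := by
  refine ⟨by simp, ?_⟩
  calc v * star v * (v * star v) = (v * star v * v) * star v := by noncomm_ring
    _ = v * star v := by rw [show v * star v * v = v from h]

theorem pis_of_prj {v : A} (h : Prj (star v * v)) : PIs v := by
  have h2 : star v * v * (star v * v) = star v * v := h.2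
  have h3 : star (v * (star v * v) - v) * (v * (star v * v) - v) = 0 := by
    have e : star (v * (star v * v) - v) = (star v * v) * star v - star v := by
      simp [star_sub, star_mul]
    rw [e]
    have : (star v * v * star v - star v) * (v * (star v * v) - v) =
        (star v * v) * (star v * v) * (star v * v) - (star v * v) * (star v * v)
          - (star v * v) * (star v * v) + star v * v := by noncomm_ring
    rw [this, h2, h2]; abel
  have h4 := star_mul_self_zero h3
  have h5 : v * (star v * v) = v := sub_eq_zero.1 h4
  show v * star v * v = v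
  rw [mul_assoc]; exact h5

theorem pis_star {v : A} (h : PIs v) : PIs (star v) := by
  have h1 : v * star v * v = v := h
  have h2 := congrArg star h1
  simp only [star_mul, star_star] at h2
  show star v * star (star v) * star v = star v
  rw [star_star, mul_assoc]; exact h2

/-- If `P, Q` are projections and `Q P Q = Q` then `P Q = Q`. -/
theorem prj_absorb {P Q : A} (hP : Prj P) (hQ : Prj Q) (h : Q * P * Q = Q) :
    P * Q = Q ∧ Q * P = Q := by
  have h1 : P * Q = Q := by
    have h3 : star (Q - P * Q) * (Q - P * Q) = 0 := by
      have e : star (Q - P * Q) = Q - Q * P := by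
        rw [star_sub, star_mul, hP.1, hQ.1]
      rw [e]
      have : (Q - Q * P) * (Q - P * Q) = Q * Q - Q * P * Q - Q * P * Q + Q * (P * P) * Q := by
        noncomm_ring
      rw [this, hP.2, hQ.2, h]; abel
    exact (sub_eq_zero.1 (star_mul_self_zero h3)).symm
  refine ⟨h1, ?_⟩
  have := congrArg star h1
  rwa [star_mul, hP.1, hQ.1] at this

theorem prj_comm_of {P Q : A} (hP : Prj P) (hQ : Prj Q) (h : P * Q = Q) : Q * P = Q := by
  have := congrArg star h
  rwa [star_mul, hP.1, hQ.1] at this

theorem prj_sub {P Q : A} (hP : Prj P) (hQ : Prj Q) (h : P * Q = Q) : Prj (P - Q) := by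
  have h' := prj_comm_of hP hQ h
  refine ⟨by rw [star_sub, hP.1, hQ.1], ?_⟩
  have : (P - Q) * (P - Q) = P * P - P * Q - Q * P + Q * Q := by noncomm_ring
  rw [this, hP.2, hQ.2, h, h']; abel

theorem exd_refl {v : A} (h : PIs v) : Exd v v := by
  show v * (star v * v) = v
  rw [← mul_assoc]; exact h

/-- `Exd v w` implies `(w* w)(v* v) = v* v`. -/
theorem exd_init {v w : A} (hv : PIs v) (hw : PIs w) (h : Exd v w) :
    (star w * w) * (star v * v) = star v * v := by
  have h1 : w * (star v * v) = v := h
  have hp := pis_prj hv
  refine (prj_absorb (pis_prj hw) hp ?_).1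
  calc star v * v * (star w * w) * (star v * v)
      = star (w * (star v * v)) * (w * (star v * v)) := by
        rw [star_mul, hp.1]; noncomm_ring
    _ = star v * v := by rw [h1]

theorem exd_trans {u v w : A} (hu : PIs u) (hv : PIs v) (h1 : Exd u v) (h2 : Exd v w) :
    Exd u w := by
  have h3 := exd_init hu hv h1
  have e1 : v * (star u * u) = u := h1
  have e2 : w * (star v * v) = v := h2
  show w * (star u * u) = u
  calc w * (star u * u) = w * ((star v * v) * (star u * u)) := by rw [h3]
    _ = (w * (star v * v)) * (star u * u) := by noncomm_ring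
    _ = u := by rw [e2, e1]

/-- Cross terms: `star a * b = 0` from `P a = a`, `Q b = b`, `P Q = 0`. -/
theorem cross {P Q a b : A} (hP : Prj P) (ha : P * a = a) (hb : Q * b = b) (h : P * Q = 0) :
    star a * b = 0 := by
  calc star a * b = star (P * a) * (Q * b) := by rw [ha, hb]
    _ = star a * (P * Q) * b := by rw [star_mul, hP.1]; noncomm_ring
    _ = 0 := by rw [h]; simp

theorem cross' {P Q a b : A} (hQ : Prj Q) (ha : a * P = a) (hb : b * Q = b)
    (h : P * Q = 0) : a * star b = 0 := by
  calc a * star b = (a * P) * star (b * Q) := by rw [ha, hb]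
    _ = a * (P * Q) * star b := by rw [star_mul, hQ.1]; noncomm_ring
    _ = 0 := by rw [h]; simp

end H219

open H219

theorem prove6_comp : W_comp.{u} := by
  intro A _ hA p q hp hq
  -- maximal partial isometry from p to q
  obtain ⟨⟨v, hv, hvp, hqv⟩, hmax⟩ := exists_maximal_of_chains_bounded
    (α := {v : A // PIs v ∧ v * p = v ∧ q * v = v}) (r := fun a b => Exd a.1 b.1) (by
      intro c hc
      rcases c.eq_empty_or_nonempty with rfl | hne
      · exact ⟨⟨0, by simp [PIs], by simp, by simp⟩, by simp⟩
      · have hch : IsChn (Subtype.val '' c) := by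
          refine ⟨hne.image _, ?_, ?_⟩
          · rintro _ ⟨a, -, rfl⟩; exact a.2.1
          · rintro _ ⟨a, ha, rfl⟩ _ ⟨b, hb, rfl⟩
            by_cases hab : a = b
            · left; rw [hab]; exact exd_refl b.2.1
            · exact hc ha hb hab
        obtain ⟨V, hV⟩ := hA.chain _ hch
        refine ⟨⟨V, hV.pi, ?_, ?_⟩, ?_⟩
        · have := hV.ann 1 (1 - p) (by
            rintro _ ⟨a, -, rfl⟩
            rw [one_mul, mul_sub, mul_one, a.2.2.1, sub_self])
          rw [one_mul, mul_sub, mul_one, sub_eq_zero] at this
          exact this.symm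
        · have := hV.ann (1 - q) 1 (by
            rintro _ ⟨a, -, rfl⟩
            rw [mul_one, sub_mul, one_mul, a.2.2.2, sub_self])
          rw [mul_one, sub_mul, one_mul, sub_eq_zero] at this
          exact this.symm
        · intro a ha
          exact hV.ext _ ⟨a, ha, rfl⟩)
    (by
      intro a b c h1 h2
      exact exd_trans a.2.1 b.2.1 h1 h2)
  simp only at hmax
  set p' := p - star v * v with hp'
  set q' := q - v * star v with hq'
  have hpv : p * (star v * v) = star v * v := by
    have := congrArg star hvp
    rw [star_mul, hp.1] at this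
    rw [← mul_assoc, this]
  have hqv' : q * (v * star v) = v * star v := by rw [← mul_assoc, hqv]
  have Pv := pis_prj hv
  have Pv' := pis_prj' hv
  have Pp' : Prj p' := prj_sub hp Pv hpv
  have Pq' : Prj q' := prj_sub hq Pv' hqv'
  have vv : v * star v * v = v := hv
  have p'v : p' * (star v * v) = 0 := by rw [hp', sub_mul, hpv, Pv.2, sub_self]
  have vp' : v * p' = 0 := by rw [hp', mul_sub, hvp, ← mul_assoc, vv, sub_self]
  have q'v : q' * v = 0 := by rw [hq', sub_mul, hqv, vv, sub_self]
  have hz : ∀ a, q' * a * p' = 0 := by
    intro a
    by_contra hne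
    obtain ⟨w, b, hw, hb, hbb, hx, -, -, h1, h2⟩ := hA.polar (q' * a * p')
    have hq'w : q' * w = w := by
      have := h1 (1 - q') (by
        rw [← mul_assoc, ← mul_assoc, sub_mul, one_mul, Pq'.2, sub_self]; simp)
      rw [sub_mul, one_mul, sub_eq_zero] at this
      exact this.symm
    have hwp' : w * p' = w := by
      have := h2 (1 - p') (by
        rw [mul_sub, mul_one, mul_assoc (q' * a) p' p', Pp'.2, sub_self])
      rw [mul_sub, mul_one, sub_eq_zero] at this
      exact this.symm
    have hwne : w ≠ 0 := by
      rintro rfl
      apply hne; rw [hx, zero_mul]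
    have hpp' : p * p' = p' := by rw [hp', mul_sub, hp.2, hpv]
    have hp'p : p' * p = p' := prj_comm_of hp Pp' hpp'
    have hqq' : q * q' = q' := by rw [hq', mul_sub, hq.2, hqv']
    have hwp : w * p = w := by
      calc w * p = w * p' * p := by rw [hwp']
        _ = w := by rw [mul_assoc, hp'p, hwp']
    have hqw : q * w = w := by
      calc q * w = q * (q' * w) := by rw [hq'w]
        _ = w := by rw [← mul_assoc, hqq', hq'w]
    have c1 : star v * w = 0 := by
      calc star v * w = star (q' * v) * w := by
            rw [star_mul, Pq'.1, mul_assoc, hq'w]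
        _ = 0 := by rw [q'v]; simp
    have c2 : star w * v = 0 := by
      have := congrArg star c1
      simpa using this
    have c3 : v * star w = 0 := by
      calc v * star w = v * star (w * p') := by rw [hwp']
        _ = (v * p') * star w := by rw [star_mul, Pp'.1]; noncomm_ring
        _ = 0 := by rw [vp', zero_mul]
    have c4 : w * star v = 0 := by
      have := congrArg star c3
      simpa using this
    have ww : w * star w * w = w := hw
    have hnew : PIs (v + w) := by
      show (v + w) * star (v + w) * (v + w) = v + w
      rw [star_add]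
      have : (v + w) * (star v + star w) * (v + w) = v * star v * v + v * (star v * w) +
        v * star w * v + v * star w * w + w * star v * v + w * star v * w + w * (star w * v) +
          w * star w * w := by noncomm_ring
      rw [this, c1, c2, c3, c4, vv, ww]; simp
    have hE := hmax ⟨v + w, hnew, by rw [add_mul, hvp, hwp], by rw [mul_add, hqv, hqw]⟩ (by
      show (v + w) * (star v * v) = v
      rw [add_mul, ← mul_assoc, vv, ← mul_assoc, c4]; simp)
    have hE' : v * (star (v + w) * (v + w)) = v + w := hE
    have : v * (star (v + w) * (v + w)) = v * star v * v + v * (star v * w) + v * star w * v +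
        v * star w * w := by rw [star_add]; noncomm_ring
    rw [this, vv, c1, c3] at hE'
    simp at hE'
    exact hwne hE'
  obtain ⟨z', hz', hz1, hz2⟩ := hA.cen p' q' Pp' Pq' hz
  obtain ⟨Pz, cz⟩ := hz'
  have P1 : Prj (1 - z') := by
    refine ⟨by rw [star_sub, star_one, Pz.1], ?_⟩
    have : (1 - z') * (1 - z') = 1 - z' - z' + z' * z' := by noncomm_ring
    rw [this, Pz.2]; abel
  have c1 : ∀ a, (1 - z') * a = a * (1 - z') := by
    intro a; rw [sub_mul, mul_sub, cz a, one_mul, mul_one]
  have hzp : (1 - z') * p = (1 - z') * (star v * v) := by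
    have h1 : (1 - z') * p' = 0 := by rw [sub_mul, one_mul, hz1, sub_self]
    rw [hp', mul_sub, sub_eq_zero] at h1
    exact h1
  have hzq : z' * q = z' * (v * star v) := by
    rw [hq', mul_sub, sub_eq_zero] at hz2
    exact hz2
  refine ⟨1 - z', ⟨P1, c1⟩, ⟨(1 - z') * v, ?_, ?_⟩, ?_⟩
  · rw [hzp, star_mul, P1.1]
    calc star v * (1 - z') * ((1 - z') * v) = star v * ((1 - z') * (1 - z')) * v := by noncomm_ring
      _ = (star v * (1 - z')) * v := by rw [P1.2]
      _ = (1 - z') * (star v * v) := by rw [← c1]; noncomm_ring
  · calc (1 - z') * q * ((1 - z') * v) = (1 - z') * (q * (1 - z')) * v := by noncomm_ring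
      _ = ((1 - z') * (1 - z')) * (q * v) := by rw [← c1 q]; noncomm_ring
      _ = (1 - z') * v := by rw [P1.2, hqv]
  · rw [show (1 : A) - (1 - z') = z' by abel]
    refine ⟨z' * star v, ?_, ?_⟩
    · rw [hzq, star_mul, star_star, Pz.1]
      calc v * z' * (z' * star v) = v * (z' * z') * star v := by noncomm_ring
        _ = (v * z') * star v := by rw [Pz.2]
        _ = z' * (v * star v) := by rw [← cz]; noncomm_ring
    · have hpv' : p * star v = star v := by
        have := congrArg star hvp
        rwa [star_mul, hp.1] at this
      calc z' * p * (z' * star v) = z' * (p * z') * star v := by noncomm_ring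
        _ = (z' * z') * (p * star v) := by rw [← cz p]; noncomm_ring
        _ = z' * star v := by rw [Pz.2, hpv']

end H759R2.Kad
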