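import Mathlib
import Pool.Agent.H759R2.Kad.Props6
import Pool.Agent.H219R2.Kad5.Comp

/-!
Isometries with orthogonal ranges in the absence of finite central projections: `W_isom`.
-/

open scoped ComplexOrder InnerProductSpace ComplexConjugate
open Finset

noncomputable section

namespace H759R2.Kad

universe u v

namespace H219

variable {A : Type u} [CStarAlgebra A]

/-- The pairs used in the maximality argument. -/
structure Pair2 (e a b : A) : Prop where
  bb : star b * b = star a * a
  pd : Prj (star a * a)
  ab : star a * b = 0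
  da : (star a * a) * a = a
  db : (star a * a) * b = b
  ed : e * (star a * a) = star a * a

namespace Pair2

variable {e a b : A}

theorem pa (h : Pair2 e a b) : PIs a := pis_of_prj h.pd

theorem pb (h : Pair2 e a b) : PIs b := pis_of_prj (by rw [h.bb]; exact h.pd)

theorem ad (h : Pair2 e a b) : a * (star a * a) = a := by
  rw [← mul_assoc]; exact h.pa

theorem bd (h : Pair2 e a b) : b * (star a * a) = b := by
  rw [← h.bb, ← mul_assoc]; exact h.pb

end Pair2

theorem pair_chain (hA : Wst A) {e : A} (he : CPrj e)
    (c : Set {x : A × A // Pair2 e x.1 x.2})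
    (hc : IsChain (fun x y => Exd x.1.1 y.1.1 ∧ Exd x.1.2 y.1.2) c) :
    ∃ ub : {x : A × A // Pair2 e x.1 x.2}, ∀ x ∈ c, Exd x.1.1 ub.1.1 ∧ Exd x.1.2 ub.1.2 := by
  rcases c.eq_empty_or_nonempty with rfl | hne
  · refine ⟨⟨(0, 0), ⟨by simp, by simp [Prj], by simp, by simp, by simp, by simp⟩⟩, by simp⟩
  have hcmp : ∀ x ∈ c, ∀ y ∈ c, (Exd x.1.1 y.1.1 ∧ Exd x.1.2 y.1.2) ∨
      (Exd y.1.1 x.1.1 ∧ Exd y.1.2 x.1.2) := by
    intro x hx y hy
    by_cases hxy : x = y
    · left; rw [hxy]; exact ⟨exd_refl y.2.pa, exd_refl y.2.pb⟩
    · exact hc hx hy hxy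
  have ch1 : IsChn ((fun x : {x : A × A // Pair2 e x.1 x.2} => x.1.1) '' c) := by
    refine ⟨hne.image _, ?_, ?_⟩
    · rintro _ ⟨x, -, rfl⟩; exact x.2.pa
    · rintro _ ⟨x, hx, rfl⟩ _ ⟨y, hy, rfl⟩
      exact (hcmp x hx y hy).imp And.left And.left
  have ch2 : IsChn ((fun x : {x : A × A // Pair2 e x.1 x.2} => x.1.2) '' c) := by
    refine ⟨hne.image _, ?_, ?_⟩
    · rintro _ ⟨x, -, rfl⟩; exact x.2.pb
    · rintro _ ⟨x, hx, rfl⟩ _ ⟨y, hy, rfl⟩
      exact (hcmp x hx y hy).imp And.right And.right
  obtain ⟨V, hV⟩ := hA.chain _ ch1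
  obtain ⟨W, hW⟩ := hA.chain _ ch2
  have ext1 : ∀ x ∈ c, Exd x.1.1 V := fun x hx => hV.ext _ ⟨x, hx, rfl⟩
  have ext2 : ∀ x ∈ c, Exd x.1.2 W := fun x hx => hW.ext _ ⟨x, hx, rfl⟩
  have ann1 : ∀ a b, (∀ x ∈ c, a * x.1.1 * b = 0) → a * V * b = 0 := by
    intro a b h
    refine hV.ann a b ?_
    rintro _ ⟨x, hx, rfl⟩; exact h x hx
  have ann2 : ∀ a b, (∀ x ∈ c, a * x.1.2 * b = 0) → a * W * b = 0 := by
    intro a b h
    refine hW.ann a b ?_
    rintro _ ⟨x, hx, rfl⟩; exact h x hx
  have PD := pis_prj hV.pi
  have PD' := pis_prj hW.pi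
  have VV : V * star V * V = V := hV.pi
  have WW : W * star W * W = W := hW.pi
  -- d is below D and D'
  have dD : ∀ x ∈ c, (star V * V) * (star x.1.1 * x.1.1) = star x.1.1 * x.1.1 := fun x hx =>
    exd_init x.2.pa hV.pi (ext1 x hx)
  have dD' : ∀ x ∈ c, (star W * W) * (star x.1.1 * x.1.1) = star x.1.1 * x.1.1 := fun x hx => by
    have := exd_init x.2.pb hW.pi (ext2 x hx)
    rwa [x.2.bb] at this
  have VD' : V * (star W * W) = V := by
    have := ann1 1 (1 - star W * W) (by
      intro x hx
      rw [one_mul, mul_sub, mul_one, sub_eq_zero]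
      have h1 := prj_comm_of PD' x.2.pd (dD' x hx)
      calc x.1.1 = x.1.1 * (star x.1.1 * x.1.1) := x.2.ad.symm
        _ = x.1.1 * (star x.1.1 * x.1.1 * (star W * W)) := by rw [h1]
        _ = x.1.1 * (star x.1.1 * x.1.1) * (star W * W) := by noncomm_ring
        _ = x.1.1 * (star W * W) := by rw [x.2.ad])
    rw [one_mul, mul_sub, mul_one, sub_eq_zero] at this
    exact this.symm
  have WD : W * (star V * V) = W := by
    have := ann2 1 (1 - star V * V) (by
      intro x hx
      rw [one_mul, mul_sub, mul_one, sub_eq_zero]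
      have h1 := prj_comm_of PD x.2.pd (dD x hx)
      calc x.1.2 = x.1.2 * (star x.1.1 * x.1.1) := x.2.bd.symm
        _ = x.1.2 * (star x.1.1 * x.1.1 * (star V * V)) := by rw [h1]
        _ = x.1.2 * (star x.1.1 * x.1.1) * (star V * V) := by noncomm_ring
        _ = x.1.2 * (star V * V) := by rw [x.2.bd])
    rw [one_mul, mul_sub, mul_one, sub_eq_zero] at this
    exact this.symm
  have DD' : star W * W = star V * V := by
    have h1 : (star V * V) * (star W * W) = star V * V := by
      rw [mul_assoc, VD']
    have h2 : (star W * W) * (star V * V) = star W * W := by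
      rw [mul_assoc, WD]
    have h3 := congrArg star h2
    rw [star_mul, PD.1, PD'.1, h1] at h3
    exact h3.symm
  have VW : star V * W = 0 := by
    have h1 : ∀ y ∈ c, star V * y.1.2 = 0 := by
      intro y hy
      have := ann1 (star y.1.2) 1 (by
        intro x hx
        rw [mul_one]
        have h2 : star x.1.1 * y.1.2 = 0 := by
          rcases hcmp x hx y hy with h | h
          · have h3 : y.1.1 * (star x.1.1 * x.1.1) = x.1.1 := h.1
            calc star x.1.1 * y.1.2 = star (y.1.1 * (star x.1.1 * x.1.1)) * y.1.2 := by rw [h3]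
              _ = (star x.1.1 * x.1.1) * (star y.1.1 * y.1.2) := by
                rw [star_mul, x.2.pd.1]; noncomm_ring
              _ = 0 := by rw [y.2.ab, mul_zero]
          · have h3 : x.1.2 * (star y.1.2 * y.1.2) = y.1.2 := h.2
            calc star x.1.1 * y.1.2 = star x.1.1 * (x.1.2 * (star y.1.2 * y.1.2)) := by rw [h3]
              _ = (star x.1.1 * x.1.2) * (star y.1.2 * y.1.2) := by noncomm_ring
              _ = 0 := by rw [x.2.ab, zero_mul]
        have := congrArg star h2
        simpa using this)
      rw [mul_one] at this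
      have h4 := congrArg star this
      simpa using h4
    have := ann2 (star V) 1 (by
      intro y hy; rw [mul_one]; exact h1 y hy)
    rwa [mul_one] at this
  have DV : (star V * V) * V = V := by
    have := ann1 (1 - star V * V) 1 (by
      intro x hx
      rw [mul_one, sub_mul, one_mul, sub_eq_zero]
      calc x.1.1 = (star x.1.1 * x.1.1) * x.1.1 := x.2.da.symm
        _ = ((star V * V) * (star x.1.1 * x.1.1)) * x.1.1 := by rw [dD x hx]
        _ = (star V * V) * ((star x.1.1 * x.1.1) * x.1.1) := by rw [mul_assoc]
        _ = (star V * V) * x.1.1 := by rw [x.2.da])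
    rw [mul_one, sub_mul, one_mul, sub_eq_zero] at this
    exact this.symm
  have DW : (star V * V) * W = W := by
    have := ann2 (1 - star V * V) 1 (by
      intro x hx
      rw [mul_one, sub_mul, one_mul, sub_eq_zero]
      calc x.1.2 = (star x.1.1 * x.1.1) * x.1.2 := x.2.db.symm
        _ = ((star V * V) * (star x.1.1 * x.1.1)) * x.1.2 := by rw [dD x hx]
        _ = (star V * V) * ((star x.1.1 * x.1.1) * x.1.2) := by rw [mul_assoc]
        _ = (star V * V) * x.1.2 := by rw [x.2.db])
    rw [mul_one, sub_mul, one_mul, sub_eq_zero] at this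
    exact this.symm
  have Ve : V * e = V := by
    have := ann1 1 (1 - e) (by
      intro x hx
      rw [one_mul, mul_sub, mul_one, sub_eq_zero]
      calc x.1.1 = x.1.1 * (star x.1.1 * x.1.1) := x.2.ad.symm
        _ = x.1.1 * (e * (star x.1.1 * x.1.1)) := by rw [x.2.ed]
        _ = x.1.1 * ((star x.1.1 * x.1.1) * e) := by rw [he.2]
        _ = (x.1.1 * (star x.1.1 * x.1.1)) * e := by noncomm_ring
        _ = x.1.1 * e := by rw [x.2.ad])
    rw [one_mul, mul_sub, mul_one, sub_eq_zero] at this
    exact this.symm
  refine ⟨⟨(V, W), ⟨DD', PD, VW, DV, DW, ?_⟩⟩, fun x hx => ⟨ext1 x hx, ext2 x hx⟩⟩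
  show e * (star V * V) = star V * V
  rw [he.2, mul_assoc, Ve]

/-- The remainder of a maximal pair is finite. -/
theorem pair_max (h2 : W_pinf.{u}) (hA : Wst A) {e a b : A} (he : CPrj e) (h : Pair2 e a b)
    (hmax : ∀ a' b', Pair2 e a' b' → Exd a a' → Exd b b' → Exd a' a) :
    Fnt (e - star a * a) := by
  by_contra hF
  have Pr : Prj (e - star a * a) := prj_sub he.1 h.pd h.ed
  obtain ⟨d', a', b', Pd', hne, hrd, ha', hb', hab', hda', hdb'⟩ := h2 A hA _ Pr hF
  set d := star a * a with hd
  have dr : d * (e - d) = 0 := by rw [mul_sub, h.pd.2, ← he.2, h.ed, sub_self]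
  have dd' : d * d' = 0 := by rw [← hrd, ← mul_assoc, dr, zero_mul]
  have d'd : d' * d = 0 := by
    have := congrArg star dd'
    rwa [star_mul, h.pd.1, Pd'.1, star_zero] at this
  have PIa' : PIs a' := pis_of_prj (by rw [ha']; exact Pd')
  have PIb' : PIs b' := pis_of_prj (by rw [hb']; exact Pd')
  have a'd' : a' * d' = a' := by rw [← ha', ← mul_assoc]; exact PIa'
  have b'd' : b' * d' = b' := by rw [← hb', ← mul_assoc]; exact PIb'
  have c1 : star a * a' = 0 := cross h.pd h.da hda' dd'
  have c2 : star a' * a = 0 := cross Pd' hda' h.da d'd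
  have c3 : star b * b' = 0 := cross h.pd h.db hdb' dd'
  have c4 : star b' * b = 0 := cross Pd' hdb' h.db d'd
  have c5 : star a * b' = 0 := cross h.pd h.da hdb' dd'
  have c6 : star a' * b = 0 := cross Pd' hda' h.db d'd
  have sa : star (a + a') * (a + a') = d + d' := by
    rw [star_add]
    have : (star a + star a') * (a + a') = star a * a + star a * a' + star a' * a +
      star a' * a' := by noncomm_ring
    rw [this, c1, c2, ha']; simp [hd]
  have sb : star (b + b') * (b + b') = d + d' := by
    rw [star_add]
    have : (star b + star b') * (b + b') = star b * b + star b * b' + star b' * b +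
      star b' * b' := by noncomm_ring
    rw [this, c3, c4, hb', h.bb]; simp [hd]
  have da' : d * a' = 0 := by rw [← hda', ← mul_assoc, dd', zero_mul]
  have db' : d * b' = 0 := by rw [← hdb', ← mul_assoc, dd', zero_mul]
  have d'a : d' * a = 0 := by rw [← h.da, ← mul_assoc, d'd, zero_mul]
  have d'b : d' * b = 0 := by rw [← h.db, ← mul_assoc, d'd, zero_mul]
  have a'd : a' * d = 0 := by rw [← a'd', mul_assoc, d'd, mul_zero]
  have b'd : b' * d = 0 := by rw [← b'd', mul_assoc, d'd, mul_zero]
  have ad' : a * d' = 0 := by rw [← h.ad, mul_assoc, dd', mul_zero]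
  have hnew : Pair2 e (a + a') (b + b') := by
    refine ⟨by rw [sa, sb], ?_, ?_, ?_, ?_, ?_⟩
    · rw [sa]
      refine ⟨by rw [star_add, h.pd.1, Pd'.1], ?_⟩
      have : (d + d') * (d + d') = d * d + d * d' + d' * d + d' * d' := by noncomm_ring
      rw [this, dd', d'd, h.pd.2, Pd'.2]; simp [hd]
    · rw [star_add]
      have : (star a + star a') * (b + b') = star a * b + star a * b' + star a' * b +
        star a' * b' := by noncomm_ring
      rw [this, h.ab, c5, c6, hab']; simp
    · rw [sa]
      have : (d + d') * (a + a') = d * a + d * a' + d' * a + d' * a' := by noncomm_ring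
      rw [this, h.da, da', d'a, hda']; simp
    · rw [sa]
      have : (d + d') * (b + b') = d * b + d * b' + d' * b + d' * b' := by noncomm_ring
      rw [this, h.db, db', d'b, hdb']; simp
    · rw [sa, mul_add, h.ed]
      have er : e * (e - d) = e - d := by rw [mul_sub, he.1.2, h.ed]
      have : e * d' = d' := by
        calc e * d' = e * ((e - d) * d') := by rw [hrd]
          _ = d' := by rw [← mul_assoc, er, hrd]
      rw [this]
  have k1 : Exd a (a + a') := by
    show (a + a') * d = a
    rw [add_mul, h.ad, a'd, add_zero]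
  have k2 : Exd b (b + b') := by
    show (b + b') * (star b * b) = b
    rw [h.bb, add_mul, h.bd, b'd, add_zero]
  have k3 : a * (star (a + a') * (a + a')) = a + a' := hmax _ _ hnew k1 k2
  rw [sa, mul_add, h.ad, ad', add_zero] at k3
  have k4 : a' = 0 := by
    have := k3.symm
    simpa using this
  apply hne
  rw [← ha', k4]; simp

end H219

open H219

theorem prove6_isom (h1 : W_comp.{u}) (h2 : W_pinf.{u}) (h3 : W_sub.{u}) : W_isom.{u} := by
  intro A _ hA e he hfin
  obtain ⟨⟨⟨a, b⟩, hab⟩, hmax⟩ := exists_maximal_of_chains_bounded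
    (α := {x : A × A // Pair2 e x.1 x.2})
    (r := fun x y => Exd x.1.1 y.1.1 ∧ Exd x.1.2 y.1.2) (pair_chain hA he)
    (by
      intro x y z h1 h2
      exact ⟨exd_trans x.2.pa y.2.pa h1.1 h2.1, exd_trans x.2.pb y.2.pb h1.2 h2.2⟩)
  simp only at hab
  have hFr : Fnt (e - star a * a) := by
    refine pair_max h2 hA he hab ?_
    intro a' b' hn k1 k2
    exact (hmax ⟨(a', b'), hn⟩ ⟨k1, k2⟩).1
  set d := star a * a with hd
  set r := e - d with hr
  have Pd : Prj d := hab.pd
  have ed : e * d = d := hab.ed
  have Pr : Prj r := prj_sub he.1 Pd ed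
  have da : d * a = a := hab.da
  have db : d * b = b := hab.db
  have ad : a * d = a := hab.ad
  have bd : b * d = b := hab.bd
  have bb : star b * b = d := hab.bb
  have ab : star a * b = 0 := hab.ab
  obtain ⟨g, ⟨Pg, cg⟩, ⟨t, ht1, ht2⟩, ⟨x, hx1, hx2⟩⟩ := h1 A hA r d Pr Pd
  have P1 : Prj (1 - g) := by
    refine ⟨by rw [star_sub, star_one, Pg.1], ?_⟩
    have : (1 - g) * (1 - g) = 1 - g - g + g * g := by noncomm_ring
    rw [this, Pg.2]; abel
  have c1 : ∀ a, (1 - g) * a = a * (1 - g) := by
    intro a; rw [sub_mul, mul_sub, cg a, one_mul, mul_one]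
  set k := 1 - g with hk
  -- the part outside g
  have hkd : k * d = 0 := by
    have Pkd : Prj (k * d) := by
      refine ⟨by rw [star_mul, P1.1, Pd.1, c1], ?_⟩
      calc k * d * (k * d) = k * (d * k) * d := by noncomm_ring
        _ = (k * k) * (d * d) := by rw [← c1 d]; noncomm_ring
        _ = k * d := by rw [P1.2, Pd.2]
    have PIx : PIs x := pis_of_prj (by rw [hx1]; exact Pkd)
    have xx : x * star x * x = x := PIx
    have xkd : x * (k * d) = x := by rw [← hx1, ← mul_assoc]; exact PIx
    have rx : r * x = x := by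
      calc r * x = r * (k * r * x) := by rw [hx2]
        _ = (r * k) * r * x := by noncomm_ring
        _ = k * (r * r) * x := by rw [← c1 r]; noncomm_ring
        _ = x := by rw [Pr.2, hx2]
    have Pf : Prj (x * star x) := pis_prj' PIx
    have hFf : Fnt (x * star x) := h3 A r (x * star x) Pr Pf (by rw [← mul_assoc, rx]) hFr
    have u1 : star (x * a * star x) * (x * a * star x) = x * star x := by
      calc star (x * a * star x) * (x * a * star x) = x * star a * (star x * x) * a * star x := by
            simp only [star_mul, star_star]; noncomm_ring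
        _ = x * star a * (k * d) * a * star x := by rw [hx1]
        _ = x * (star a * k) * (d * a) * star x := by noncomm_ring
        _ = x * (k * (star a * a)) * star x := by rw [da, ← c1 (star a)]; noncomm_ring
        _ = x * star x := by rw [← hd, xkd]
    have u2 : (x * star x) * (x * a * star x) = x * a * star x := by
      calc (x * star x) * (x * a * star x) = (x * star x * x) * a * star x := by noncomm_ring
        _ = x * a * star x := by rw [xx]
    have u3 := hFf _ u1 u2
    have u4 : (x * a * star x) * star (x * a * star x) = x * (k * (a * star a)) * star x := by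
      calc (x * a * star x) * star (x * a * star x) = x * a * (star x * x) * star a * star x := by
            simp only [star_mul, star_star]; noncomm_ring
        _ = x * a * (k * d) * star a * star x := by rw [hx1]
        _ = x * (a * k) * d * star a * star x := by noncomm_ring
        _ = x * k * (a * d) * star a * star x := by rw [← c1 a]; noncomm_ring
        _ = x * (k * (a * star a)) * star x := by rw [ad]; noncomm_ring
    rw [u4] at u3
    have u5 : k * (a * star a) = k * d := by
      have : star x * (x * (k * (a * star a)) * star x) * x = star x * (x * star x) * x := by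
        rw [u3]
      have e1 : star x * (x * (k * (a * star a)) * star x) * x =
          (star x * x) * (k * (a * star a)) * (star x * x) := by noncomm_ring
      have e2 : star x * (x * star x) * x = (star x * x) * (star x * x) := by noncomm_ring
      rw [e1, e2, hx1, Pkd.2] at this
      have sad : star a * d = star a := by
        have := congrArg star da
        rwa [star_mul, Pd.1] at this
      have e3 : (k * d) * (k * (a * star a)) * (k * d) = k * (a * star a) := by
        calc (k * d) * (k * (a * star a)) * (k * d)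
            = k * (d * k) * a * (star a * k) * d := by noncomm_ring
          _ = (k * k) * (d * a) * k * (star a * d) := by
            rw [← c1 d, ← c1 (star a)]; noncomm_ring
          _ = k * (a * k) * star a := by rw [P1.2, da, sad]; noncomm_ring
          _ = (k * k) * a * star a := by rw [← c1 a]; noncomm_ring
          _ = k * (a * star a) := by rw [P1.2]; noncomm_ring
      rw [e3] at this
      exact this
    have u6 : k * b = 0 := by
      calc k * b = k * (d * b) := by rw [db]
        _ = (k * d) * b := by noncomm_ring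
        _ = k * (a * star a) * b := by rw [u5]
        _ = k * a * (star a * b) := by noncomm_ring
        _ = 0 := by rw [ab, mul_zero]
    calc k * d = k * (star b * b) := by rw [bb]
      _ = (k * star b) * b := by noncomm_ring
      _ = star b * (k * b) := by rw [c1 (star b)]; noncomm_ring
      _ = 0 := by rw [u6, mul_zero]
  have hke : k * e = k * r := by rw [hr, mul_sub, hkd, sub_zero]
  have Pke : Prj (k * e) := by
    refine ⟨by rw [star_mul, P1.1, he.1.1, c1], ?_⟩
    calc k * e * (k * e) = k * (e * k) * e := by noncomm_ring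
      _ = (k * k) * (e * e) := by rw [← c1 e]; noncomm_ring
      _ = k * e := by rw [P1.2, he.1.2]
  have hke0 : k * e = 0 := by
    refine hfin (k * e) ⟨Pke, ?_⟩ ?_ ?_
    · intro y
      calc k * e * y = k * (e * y) := by rw [mul_assoc]
        _ = (k * y) * e := by rw [he.2 y, mul_assoc]
        _ = y * (k * e) := by rw [c1 y, mul_assoc]
    · rw [← mul_assoc, ← c1 e, mul_assoc, he.1.2]
    · refine h3 A r (k * e) Pr Pke ?_ hFr
      rw [hke, ← mul_assoc, ← c1 r, mul_assoc, Pr.2]
  have hge : g * e = e := by
    have : (1 - g) * e = 0 := hke0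
    rw [sub_mul, one_mul, sub_eq_zero] at this
    exact this.symm
  have er : e * r = r := by rw [hr, mul_sub, he.1.2, ed]
  have hgr : g * r = r := by
    calc g * r = g * (e * r) := by rw [er]
      _ = (g * e) * r := by rw [mul_assoc]
      _ = r := by rw [hge, er]
  have hgd : g * d = d := by
    calc g * d = g * (e * d) := by rw [ed]
      _ = (g * e) * d := by rw [mul_assoc]
      _ = d := by rw [hge, ed]
  rw [hgr] at ht1
  rw [hgd] at ht2
  -- the isometry x of e into d
  set w := a + b * t with hw
  have ba : star b * a = 0 := by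
    have := congrArg star ab
    simpa using this
  have ww : star w * w = e := by
    calc star w * w = star a * a + (star a * b) * t + star t * (star b * a) +
          star t * (star b * b) * t := by
          rw [hw, star_add, star_mul]; noncomm_ring
      _ = d + star t * (d * t) := by rw [ab, ba, bb]; simp [hd, mul_assoc]
      _ = e := by rw [ht2, ht1, hr]; abel
  have dw : d * w = w := by rw [hw, mul_add, ← mul_assoc, da, db]
  refine ⟨a * w, b * w, ?_, ?_, ?_, ?_, ?_⟩
  · calc star (a * w) * (a * w) = star w * ((star a * a) * w) := by rw [star_mul]; noncomm_ring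
      _ = e := by rw [← hd, dw, ww]
  · calc star (b * w) * (b * w) = star w * ((star b * b) * w) := by rw [star_mul]; noncomm_ring
      _ = e := by rw [bb, dw, ww]
  · calc star (a * w) * (b * w) = star w * (star a * b) * w := by rw [star_mul]; noncomm_ring
      _ = 0 := by rw [ab]; simp
  · calc e * (a * w) = e * ((d * a) * w) := by rw [da]
      _ = (e * d) * a * w := by noncomm_ring
      _ = a * w := by rw [ed, da]
  · calc e * (b * w) = e * ((d * b) * w) := by rw [db]
      _ = (e * d) * b * w := by noncomm_ring
      _ = b * w := by rw [ed, db]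

end H759R2.Kad
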